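import Pool.Agent.Helper74.UB.Goals4

/-!
# UB, ROUTEB: the lower route, by symmetry from the upper one
-/

namespace Pool.Agent.Helper17.UB

open Finset Equiv Helper28.VF
open Pool.Agent.Helper74.UB
open scoped Classical

/-- **ROUTEB.** The lower route. -/
theorem routeb (h1 : StmtRouteT) (h2 : StmtFlipB) (h3 : StmtTpF) : StmtRouteB := by
  intro K h V D E F E' F' _ _ _ _ _ _ L f M dE dW dU dN I M' y0 y1 c v₀ A Q hB T X w hw hX hA
  have hB' := h2 K h V D E F E' F' L f M dE dW dU dN I M' y0 y1 c v₀ A Q hB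
  have key : ∀ s, tp (L.flip h).row ((h : ℤ) - y1) (A s) = h - bt L.row y1 (A s) := fun s =>
    ((h3 V {q : F // I q} L.row y1 (A s)).2.2.2 (h : ℤ)).1
  have hrow : ∀ v, (L.flip h).row v = h - L.row v := fun v => rfl
  obtain ⟨R, r1, r2, r3, r4⟩ := h1 K h V D E F E' F' (L.flip h) (flipF h f) M _ _ _ _ I M' _ _ c v₀
    A Q hB' T X w (by rw [hrow, hw]; ring) hX hA
  refine ⟨R, ?_, ?_, ?_, ?_⟩
  · intro s hs hb
    have := r1 s hs (by rw [key]; omega)
    rw [this, key]; ring
  · intro s hs i hi hi'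
    obtain ⟨v, hv, hv'⟩ := r2 s hs i hi hi'
    refine ⟨v, hv, ?_⟩
    rw [key, hrow] at hv'
    omega
  · intro s hs hp hb
    obtain ⟨h4, i, h5, h6⟩ := r3 s hs hp (by rw [key]; omega)
    rw [key, key] at h4
    refine ⟨by omega, -i, ?_, ?_⟩
    · rw [h5, key]
      simp only [flipF]
      congr 2
      ring
    · intro hI
      have := h6 hI
      rw [key] at this
      simp only [flipF] at this
      convert this using 3
      ring
  · intro s hs hp
    obtain ⟨v, hv, hv'⟩ := r4 s hs hp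
    refine ⟨v, hv, ?_⟩
    rw [key, hrow] at hv'
    omega

end Pool.Agent.Helper17.UB
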