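import Pool.Agent.Helper74.UB.Goals1

/-!
# UB-SOL: the single orbit lemma
-/

namespace Pool.Agent.Helper17.UB

open Finset Equiv Helper28.VF
open Pool.Agent.Helper74.UB
open scoped Classical

section
variable {D V E F : Type} [Fintype D] [Fintype V] [Fintype E] [Fintype F] (M : PM D V E F)

theorem vt_sg (x : D) : M.vt (M.σ x) = M.vt x :=
  (M.vt_iff _ _).2 (Equiv.Perm.sameCycle_apply_left.2 (Equiv.Perm.SameCycle.refl _ _))

theorem fc_ph (x : D) : M.fc (ph M x) = M.fc x :=
  (M.fc_iff _ _).2 (Equiv.Perm.sameCycle_apply_left.2 (Equiv.Perm.SameCycle.refl _ _))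

theorem fc_sg (x : D) : M.fc (M.σ x) = M.fc (M.α x) := by
  have h := fc_ph M (M.α x)
  unfold ph at h
  rwa [M.α_inv] at h

theorem vt_ph (x : D) : M.vt (ph M x) = tg M x := vt_sg M _

theorem tg_al (x : D) : tg M (M.α x) = M.vt x := by
  unfold tg
  rw [M.α_inv]

theorem vt_pow (n : ℕ) (x : D) : M.vt ((M.σ ^ n) x) = M.vt x := by
  induction n with
  | zero => rfl
  | succ n ih => rw [pow_succ', Equiv.Perm.mul_apply, vt_sg, ih]

theorem touch_congr {O : Finset V} {x y : D} (h : M.fc x = M.fc y) :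
    Touch M O x ↔ Touch M O y := by
  unfold Touch
  rw [h]

/-- `nxt y` is touched together with `y`, or it lies on the same face. -/
theorem nxt_alt (O : Finset V) (y : D) :
    Touch M O y ∨ M.fc (nxt M O y) = M.fc y := by
  unfold nxt
  split_ifs with h
  · by_cases h1 : Nat.find h = 1
    · right
      rw [h1, pow_one]
      exact fc_ph M y
    · left
      have h2 : ¬ (0 < 1 ∧ tg M ((M.σ ^ 1) (M.α y)) ∉ O) := by
        apply Nat.find_min h
        have := (Nat.find_spec h).1
        omega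
      rw [pow_one] at h2
      have h3 : tg M (M.σ (M.α y)) ∈ O := by
        by_contra h4
        exact h2 ⟨one_pos, h4⟩
      refine ⟨ph M (ph M y), ?_, ?_⟩
      · rw [fc_ph, fc_ph]
      · rw [vt_ph]
        exact h3
  · right
    rfl

theorem nxt_eq (O : Finset V) (y : D) (n : ℕ) (hn : 0 < n)
    (hx : tg M ((M.σ ^ n) (M.α y)) ∉ O) :
    ∃ k, 0 < k ∧ k ≤ n ∧ nxt M O y = (M.σ ^ k) (M.α y) ∧ tg M ((M.σ ^ k) (M.α y)) ∉ O := by
  have h : ∃ m : ℕ, 0 < m ∧ tg M ((M.σ ^ m) (M.α y)) ∉ O := ⟨n, hn, hx⟩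
  refine ⟨Nat.find h, (Nat.find_spec h).1, Nat.find_min' h ⟨hn, hx⟩, ?_, (Nat.find_spec h).2⟩
  unfold nxt
  rw [dif_pos h]

/-- The next dart after `α x` is a rotation of `x`. -/
theorem nxt_al (O : Finset V) (x : D) (n : ℕ) (hn : 0 < n) (hx : tg M ((M.σ ^ n) x) ∉ O) :
    ∃ k, 0 < k ∧ k ≤ n ∧ nxt M O (M.α x) = (M.σ ^ k) x ∧ tg M ((M.σ ^ k) x) ∉ O := by
  have h := nxt_eq M O (M.α x) n hn (by rw [M.α_inv]; exact hx)
  rw [M.α_inv] at h
  exact h

end

theorem z2 (a b : ZMod 2) (h : a + b = 0) : a = b := by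
  revert a b
  decide

theorem sol (hFace : StmtFace) (hNxt : StmtNxt) : StmtSol := by
  intro D V E F _ _ _ _ M O hconn hne d hd e he hr
  obtain ⟨n1, n2, n3, n4⟩ := hNxt D V E F M O
  have hbd : ∀ x, x ∈ bd M O ↔ Bd M O x := fun x => by simp [bd]
  -- the permutation of the boundary darts
  let f : (bd M O) → (bd M O) := fun x => ⟨nxt M O x, n2 x x.2⟩
  have hfinj : Function.Injective f := by
    intro x y hxy
    apply Subtype.ext
    have hx := (hbd x).1 x.2
    have hy := (hbd y).1 y.2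
    exact n3 x y hx.2.1 hy.2.1 (congrArg Subtype.val hxy)
  let τ : Perm (bd M O) := Equiv.ofBijective f (Finite.injective_iff_bijective.1 hfinj)
  have hτ : ∀ x : bd M O, ((τ x : bd M O) : D) = nxt M O x := fun x => rfl
  have hτn : ∀ (n : ℕ) (x : bd M O), (((τ ^ n) x : bd M O) : D) = (nxt M O)^[n] x := by
    intro n
    induction n with
    | zero => intro x; rfl
    | succ n ih =>
      intro x
      rw [pow_succ, Equiv.Perm.mul_apply, ih, hτ, Function.iterate_succ_apply]
  set ω : D → Prop := fun x => ∃ h : x ∈ bd M O, τ.SameCycle ⟨d, hd⟩ ⟨x, h⟩ with hω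
  have hωbd : ∀ x, ω x → x ∈ bd M O := fun x h => h.1
  have hωd : ω d := ⟨hd, Equiv.Perm.SameCycle.refl _ _⟩
  have hωn : ∀ x, x ∈ bd M O → (ω x ↔ ω (nxt M O x)) := by
    intro x hx
    constructor
    · rintro ⟨h, hs⟩
      refine ⟨n2 x h, ?_⟩
      exact Equiv.Perm.sameCycle_apply_right.2 hs
    · rintro ⟨h, hs⟩
      refine ⟨hx, ?_⟩
      have : τ.SameCycle ⟨d, hd⟩ (τ ⟨x, hx⟩) := hs
      exact Equiv.Perm.sameCycle_apply_right.1 this
  -- the cycle mod 2
  let m : D → ZMod 2 := fun x => (if ω x then 1 else 0) + (if ω (M.α x) then 1 else 0)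
  have hm : ∀ x, m (M.α x) = m x := by
    intro x
    show (if ω (M.α x) then (1 : ZMod 2) else 0) + (if ω (M.α (M.α x)) then 1 else 0) =
      (if ω x then 1 else 0) + (if ω (M.α x) then 1 else 0)
    rw [M.α_inv, add_comm]
  have hsum : ∀ v, ∑ x ∈ univ.filter (fun x => M.vt x = v), m x = 0 := by
    intro v
    set A : Finset D := univ.filter fun x => M.vt x = v ∧ ω x with hA
    set B : Finset D := univ.filter fun x => tg M x = v ∧ ω x with hB
    have hcard : B.card = A.card := by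
      refine Finset.card_bij (fun x _ => nxt M O x) ?_ ?_ ?_
      · intro x hx
        rw [hB, mem_filter] at hx
        rw [hA, mem_filter]
        have hb := (hbd x).1 (hωbd x hx.2.2)
        refine ⟨mem_univ _, ?_, (hωn x (hωbd x hx.2.2)).1 hx.2.2⟩
        rw [(n1 x hb.2.1).1]
        exact hx.2.1
      · intro x hx y hy hxy
        rw [hB, mem_filter] at hx hy
        have hb := (hbd x).1 (hωbd x hx.2.2)
        have hc := (hbd y).1 (hωbd y hy.2.2)
        exact n3 x y hb.2.1 hc.2.1 hxy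
      · intro y hy
        rw [hA, mem_filter] at hy
        obtain ⟨x, hx, hxy⟩ := n4 y (hωbd y hy.2.2)
        have hb := (hbd x).1 hx
        refine ⟨x, ?_, hxy⟩
        rw [hB, mem_filter]
        refine ⟨mem_univ _, ?_, (hωn x hx).2 (by rw [hxy]; exact hy.2.2)⟩
        rw [← (n1 x hb.2.1).1, hxy]
        exact hy.2.1
    have e1 : ∑ x ∈ univ.filter (fun x => M.vt x = v), (if ω x then (1 : ZMod 2) else 0) =
        (A.card : ZMod 2) := by
      rw [← Finset.sum_filter, Finset.filter_filter, Finset.sum_const, nsmul_eq_mul, mul_one]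
    have e2 : ∑ x ∈ univ.filter (fun x => M.vt x = v), (if ω (M.α x) then (1 : ZMod 2) else 0) =
        (B.card : ZMod 2) := by
      rw [← Finset.sum_filter, Finset.filter_filter, Finset.sum_const, nsmul_eq_mul, mul_one]
      congr 1
      refine Finset.card_bij (fun x _ => M.α x) ?_ ?_ ?_
      · intro x hx
        rw [mem_filter] at hx
        rw [hB, mem_filter]
        exact ⟨mem_univ _, by rw [tg_al]; exact hx.2.1, hx.2.2⟩
      · intro x _ y _ hxy
        exact M.α.injective hxy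
      · intro y hy
        rw [hB, mem_filter] at hy
        refine ⟨M.α y, ?_, M.α_inv y⟩
        rw [mem_filter]
        exact ⟨mem_univ _, hy.2.1, by rw [M.α_inv]; exact hy.2.2⟩
    show ∑ x ∈ univ.filter (fun x => M.vt x = v),
      ((if ω x then (1 : ZMod 2) else 0) + (if ω (M.α x) then 1 else 0)) = 0
    rw [Finset.sum_add_distrib, e1, e2, hcard]
    exact CharTwo.add_self_eq_zero _
  obtain ⟨w, hw1, hw2⟩ := hFace D V E F M m hm hsum
  -- (A)
  have hout : ∀ x, M.vt x ∈ O → w (M.σ x) = w x := by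
    intro x hx
    have h1 : ¬ ω x := fun h => ((hbd x).1 (hωbd x h)).2.1 hx
    have h2 : ¬ ω (M.α x) := by
      intro h
      have := ((hbd _).1 (hωbd _ h)).2.2
      rw [tg_al] at this
      exact this hx
    have h3 : w x + w (M.α x) = 0 := by
      rw [hw2]
      show (if ω x then (1 : ZMod 2) else 0) + (if ω (M.α x) then 1 else 0) = 0
      rw [if_neg h1, if_neg h2, add_zero]
    rw [hw1 _ _ (fc_sg M x)]
    exact (z2 _ _ h3).symm
  have houtn : ∀ (n : ℕ) (x : D), M.vt x ∈ O → w ((M.σ ^ n) x) = w x := by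
    intro n
    induction n with
    | zero => intro x _; rfl
    | succ n ih =>
      intro x hx
      rw [pow_succ', Equiv.Perm.mul_apply, hout _ (by rw [vt_pow]; exact hx), ih x hx]
  have hout2 : ∀ x y, M.vt x = M.vt y → M.vt x ∈ O → w x = w y := by
    intro x y hxy hx
    obtain ⟨n, hn⟩ := ((M.vt_iff x y).1 hxy).exists_nat_pow_eq
    rw [← hn, houtn n x hx]
  obtain ⟨p0, hp0⟩ := hne
  obtain ⟨x0, hx0⟩ := M.vt_surj p0
  obtain ⟨c, hc⟩ : ∃ c, c = w x0 := ⟨_, rfl⟩
  have hall : ∀ x, M.vt x ∈ O → w x = c := by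
    set X : Finset V := O.filter fun p => ∃ x, M.vt x = p ∧ w x = c with hX
    have hXO : X = O := by
      by_contra hne'
      obtain ⟨u, hu, v, hv, hvX, x, y, hxy, hxu, hyv⟩ := hconn X (filter_subset _ _)
        ⟨p0, by rw [hX, mem_filter]; exact ⟨hp0, x0, hx0, hc.symm⟩⟩ hne'
      rw [hX, mem_filter] at hu
      obtain ⟨huO, x', hx', hwx'⟩ := hu
      apply hvX
      rw [hX, mem_filter]
      refine ⟨hv, y, hyv, ?_⟩
      rw [← hw1 x y hxy, ← hwx']
      exact hout2 x x' (by rw [hxu, hx']) (by rw [hxu]; exact huO)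
    intro x hx
    have hx2 : M.vt x ∈ X := by rw [hXO]; exact hx
    rw [hX, mem_filter] at hx2
    obtain ⟨-, x', hx', hwx'⟩ := hx2
    rw [← hwx']
    exact hout2 x x' hx'.symm hx
  have htouch : ∀ x, Touch M O x → w x = c := by
    rintro x ⟨y, hy, hyO⟩
    rw [← hw1 y x hy]
    exact hall y hyO
  -- (B)
  set N : D → Prop := fun x => M.vt x ∉ O ∧ tg M x ∉ O with hN
  set P : D → Prop := fun x => (Touch M O x → ω x) ∧ (¬ Touch M O x → w x = c + 1) with hP
  have hNal : ∀ x, N x → N (M.α x) := fun x hx => ⟨hx.2, by rw [tg_al]; exact hx.1⟩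
  have hNt : ∀ x, ω x → Touch M O x := fun x hx => ((hbd x).1 (hωbd x hx)).1
  have hPal1 : ∀ x, P x → P (M.α x) := by
    intro x hx
    have hs := hw2 x
    have hmx : m x = (if ω x then (1 : ZMod 2) else 0) + (if ω (M.α x) then 1 else 0) := rfl
    rw [hmx] at hs
    by_cases h1 : Touch M O x
    · have hox := hx.1 h1
      rw [if_pos hox, htouch x h1] at hs
      refine ⟨fun h2 => ?_, fun h2 => ?_⟩
      · by_contra h3
        rw [if_neg h3, htouch _ h2, CharTwo.add_self_eq_zero, add_zero] at hs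
        exact zero_ne_one hs
      · have h3 : ¬ ω (M.α x) := fun h => h2 (hNt _ h)
        rw [if_neg h3, add_zero] at hs
        have : w (M.α x) = c + (c + w (M.α x)) := by
          rw [← add_assoc, CharTwo.add_self_eq_zero, zero_add]
        rw [this, hs]
    · have hox : ¬ ω x := fun h => h1 (hNt _ h)
      rw [if_neg hox, hx.2 h1, zero_add] at hs
      refine ⟨fun h2 => ?_, fun h2 => ?_⟩
      · by_contra h3
        rw [if_neg h3, htouch _ h2] at hs
        have : c + 1 + c = (c + c) + 1 := by ring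
        rw [this, CharTwo.add_self_eq_zero, zero_add] at hs
        exact one_ne_zero hs
      · have h3 : ¬ ω (M.α x) := fun h => h2 (hNt _ h)
        rw [if_neg h3] at hs
        exact (z2 _ _ hs).symm
  have hPal : ∀ x, P x ↔ P (M.α x) := by
    intro x
    refine ⟨hPal1 x, fun h => ?_⟩
    have := hPal1 _ h
    rwa [M.α_inv] at this
  have hPn : ∀ y, N y → (P y ↔ P (nxt M O y)) := by
    intro y hy
    have key : Touch M O y → (P y ↔ P (nxt M O y)) := by
      intro h
      have hyb : y ∈ bd M O := (hbd y).2 ⟨h, hy.1, hy.2⟩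
      have hzb : Touch M O (nxt M O y) := ((hbd _).1 (n2 y hyb)).1
      constructor
      · intro hp
        exact ⟨fun _ => (hωn y hyb).1 (hp.1 h), fun h' => absurd hzb h'⟩
      · intro hp
        exact ⟨fun _ => (hωn y hyb).2 (hp.1 hzb), fun h' => absurd h h'⟩
    by_cases h : Touch M O y
    · exact key h
    · rcases nxt_alt M O y with h1 | h1
      · exact absurd h1 h
      · have h2 : ¬ Touch M O (nxt M O y) := fun h3 => h ((touch_congr M h1).1 h3)
        constructor
        · intro hp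
          exact ⟨fun h' => absurd h' h2, fun _ => by rw [hw1 _ _ h1]; exact hp.2 h⟩
        · intro hp
          exact ⟨fun h' => absurd h' h, fun _ => by rw [← hw1 _ _ h1]; exact hp.2 h2⟩
  have hPpow : ∀ (n : ℕ) (x : D), N x → N ((M.σ ^ n) x) → (P x ↔ P ((M.σ ^ n) x)) := by
    intro n
    induction n using Nat.strong_induction_on with
    | _ n ih =>
      intro x hx hxn
      rcases Nat.eq_zero_or_pos n with h0 | h0
      · subst h0
        exact Iff.rfl
      · obtain ⟨k, hk0, hkn, hk1, hk2⟩ := nxt_al M O x n h0 hxn.2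
        have hNk : N ((M.σ ^ k) x) := ⟨by rw [vt_pow]; exact hx.1, hk2⟩
        have e1 : (M.σ ^ n) x = (M.σ ^ (n - k)) ((M.σ ^ k) x) := by
          rw [← Equiv.Perm.mul_apply, ← pow_add]
          congr 2
          omega
        rw [hPal x, hPn _ (hNal x hx), hk1, e1]
        exact ih (n - k) (by omega) _ hNk (by rw [← e1]; exact hxn)
  have hPout : ∀ x y, M.vt x = M.vt y → N x → N y → P x → P y := by
    intro x y hxy hx hy hp
    obtain ⟨n, hn⟩ := ((M.vt_iff x y).1 hxy).exists_nat_pow_eq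
    rw [← hn]
    exact (hPpow n x hx (by rw [hn]; exact hy)).1 hp
  -- (C)
  have hdB := (hbd d).1 hd
  have heB := (hbd e).1 he
  have hgood : M.vt e ∉ O ∧ ∀ x, M.vt x = M.vt e → tg M x ∉ O → P x := by
    have hr' : Relation.ReflTransGen (fun a b => Ad M a b ∧ b ∉ O) (M.vt d) (M.vt e) := hr
    clear hr
    generalize M.vt e = ve at hr'
    induction hr' with
    | refl =>
      refine ⟨hdB.2.1, fun x hx hxO => ?_⟩
      refine hPout d x hx.symm ⟨hdB.2.1, hdB.2.2⟩ ⟨by rw [hx]; exact hdB.2.1, hxO⟩ ?_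
      exact ⟨fun _ => hωd, fun h => absurd hdB.1 h⟩
    | tail _ hab ih =>
      rename_i a b
      obtain ⟨⟨x, hxa, hxb⟩, hbO⟩ := hab
      obtain ⟨haO, hg⟩ := ih
      refine ⟨hbO, fun y hy hyO => ?_⟩
      have hNx : N x := ⟨by rw [hxa]; exact haO, by rw [hxb]; exact hbO⟩
      have hPx : P x := hg x hxa hNx.2
      refine hPout (M.α x) y ?_ (hNal x hNx) ⟨by rw [hy]; exact hbO, hyO⟩ ((hPal x).1 hPx)
      show tg M x = M.vt y
      rw [hxb, hy]
  have hPe : P e := hgood.2 e rfl heB.2.2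
  obtain ⟨h, hs⟩ := hPe.1 heB.1
  obtain ⟨n, hn⟩ := hs.exists_nat_pow_eq
  refine ⟨n, ?_⟩
  have := hτn n ⟨d, hd⟩
  rw [hn] at this
  exact this.symm

end Pool.Agent.Helper17.UB
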